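import Pool.Agent.H74.ZC.HE
import Mathlib

/-!
The wedge `W2` of two spheres, as reduced suspension of two circles, and its self-maps.
-/

open Topology unitInterval Set

namespace Pool.H74

/-- The circle. -/
abbrev KK : Type := AddCircle (1 : ℝ)

/-- Base points of `(K × Bool) × I`. -/
def W2Base (p : (KK × Bool) × I) : Prop := p.1.1 = 0 ∨ p.2 = 0 ∨ p.2 = 1

/-- The wedge of two reduced suspensions of the circle. -/
def W2 : Type := Quot fun p p' : (KK × Bool) × I => W2Base p ∧ W2Base p'

namespace W2

instance : TopologicalSpace W2 := inferInstanceAs (TopologicalSpace (Quot _))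

/-- The quotient map. -/
def mk : C((KK × Bool) × I, W2) := ⟨Quot.mk _, continuous_quot_mk⟩

theorem isQuotientMap_mk : IsQuotientMap mk := isQuotientMap_quot_mk

/-- The base point. -/
def pt : W2 := mk ((0, false), 0)

theorem mk_base {p : (KK × Bool) × I} (h : W2Base p) : mk p = pt :=
  Quot.sound ⟨h, .inl rfl⟩

@[simp] theorem mk_zero (q : KK × Bool) : mk (q, 0) = pt := mk_base (.inr (.inl rfl))
@[simp] theorem mk_one (q : KK × Bool) : mk (q, 1) = pt := mk_base (.inr (.inr rfl))
@[simp] theorem mk_K_zero (i : Bool) (t : I) : mk ((0, i), t) = pt := mk_base (.inl rfl)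

theorem ind {P : W2 → Prop} (h : ∀ k i t, P (mk ((k, i), t))) (w : W2) : P w := by
  induction w using Quot.ind with
  | mk p => exact h p.1.1 p.1.2 p.2

variable {Y : Type} [TopologicalSpace Y]

/-- Maps out of `W2`. -/
def desc (q : C((KK × Bool) × I, Y)) (y : Y) (h : ∀ p, W2Base p → q p = y) : C(W2, Y) where
  toFun := Quot.lift q (fun p p' hp => by rw [h p hp.1, h p' hp.2])
  continuous_toFun := isQuotientMap_mk.continuous_iff.2 q.continuous

@[simp] theorem desc_mk (q : C((KK × Bool) × I, Y)) (y : Y) (h : ∀ p, W2Base p → q p = y) (p) :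
    desc q y h (mk p) = q p := rfl

@[simp] theorem desc_pt (q : C((KK × Bool) × I, Y)) (y : Y) (h : ∀ p, W2Base p → q p = y) :
    desc q y h pt = y := h _ (.inl rfl)

theorem hom_ext {f f' : C(W2, Y)} (h : ∀ k i t, f (mk ((k, i), t)) = f' (mk ((k, i), t))) :
    f = f' := by
  ext w
  induction w using ind with
  | h k i t => exact h k i t

instance : CompactSpace W2 :=
  ⟨by
    have h : (Set.univ : Set W2) = mk '' univ := by
      rw [image_univ]; exact (Set.range_eq_univ.2 Quot.mk_surjective).symm
    rw [h]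
    exact isCompact_univ.image mk.continuous⟩

/-- A map of `(K × Bool)` to itself fixing base points induces a map of `W2`. -/
def mapK (g : C(KK × Bool, KK × Bool)) (hg : ∀ i, (g (0, i)).1 = 0) : C(W2, W2) :=
  desc (mk.comp (g.prodMap (.id I))) pt (by
    rintro ⟨⟨k, i⟩, t⟩ (h | h | h)
    · obtain rfl : k = 0 := h
      exact mk_base (.inl (hg i))
    · obtain rfl : t = 0 := h
      exact mk_zero _
    · obtain rfl : t = 1 := h
      exact mk_one _)

@[simp] theorem mapK_mk (g : C(KK × Bool, KK × Bool)) (hg : ∀ i, (g (0, i)).1 = 0) (q t) :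
    mapK g hg (mk (q, t)) = mk (g q, t) := rfl

/-- Doubling in the circle direction. -/
def dbl : C(W2, W2) := mapK ⟨fun q => (q.1 + q.1, q.2), by fun_prop⟩ (by simp)

/-- Negation in the circle direction. -/
def neg : C(W2, W2) := mapK ⟨fun q => (-q.1, q.2), by fun_prop⟩ (by simp)

/-- Exchange of the two spheres. -/
def swp : C(W2, W2) := mapK ⟨fun q => (q.1, !q.2), by fun_prop⟩ (by simp)

/-- Negation on the second sphere. -/
def eps : C(W2, W2) :=
  mapK ⟨fun q => (if q.2 then -q.1 else q.1, q.2), by
    rw [continuous_prodMk]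
    refine ⟨?_, continuous_snd⟩
    rw [continuous_prod_of_discrete_right]
    intro b; cases b
    · simp only [Bool.false_eq_true, if_false]; exact continuous_id
    · simpa using continuous_neg⟩ (by rintro (_ | _) <;> simp)

/-- Pointed sum of maps out of `W2` (first `p`, then `p'` in the suspension direction). -/
noncomputable def cat (p p' : C(W2, Y)) (h : p pt = p' pt) : C(W2, Y) :=
  desc (Fam.cat (p.comp mk) (p'.comp mk) (by intro w; simp [h])) (p pt) (by
    rintro ⟨⟨k, i⟩, t⟩ (h' | h' | h')
    · obtain rfl : k = 0 := h'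
      by_cases ht : (t : ℝ) ≤ 1 / 2
      · rw [Fam.cat_of_le ht]; simp
      · rw [Fam.cat_of_gt ht]; simp [h]
    · obtain rfl : t = 0 := h'
      simp
    · obtain rfl : t = 1 := h'
      simp [h])

theorem cat_mk (p p' : C(W2, Y)) (h : p pt = p' pt) (z : (KK × Bool) × I) :
    cat p p' h (mk z) = Fam.cat (p.comp mk) (p'.comp mk) (by intro w; simp [h]) z := rfl

@[simp] theorem cat_pt (p p' : C(W2, Y)) (h : p pt = p' pt) : cat p p' h pt = p pt :=
  desc_pt _ _ _

theorem comp_cat {Z : Type} [TopologicalSpace Z] (f : C(Y, Z)) (p p' : C(W2, Y))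
    (h : p pt = p' pt) : f.comp (cat p p' h) = cat (f.comp p) (f.comp p') (congrArg f h) := by
  apply hom_ext
  intro k i t
  rw [ContinuousMap.comp_apply, cat_mk, cat_mk, ← ContinuousMap.comp_apply, Fam.comp_cat]
  rfl

@[simp] theorem mapK_pt (g : C(KK × Bool, KK × Bool)) (hg : ∀ i, (g (0, i)).1 = 0) :
    mapK g hg pt = pt := desc_pt _ _ _

theorem cat_comp_mapK (p p' : C(W2, Y)) (h : p pt = p' pt) (g : C(KK × Bool, KK × Bool))
    (hg : ∀ i, (g (0, i)).1 = 0) : (cat p p' h).comp (mapK g hg) =
      cat (p.comp (mapK g hg)) (p'.comp (mapK g hg)) (by simp [h]) := by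
  apply hom_ext
  intro k i t
  rw [ContinuousMap.comp_apply, cat_mk, mapK_mk, cat_mk]
  by_cases ht : (t : ℝ) ≤ 1 / 2
  · rw [Fam.cat_of_le ht, Fam.cat_of_le ht]; simp
  · rw [Fam.cat_of_gt ht, Fam.cat_of_gt ht]; simp

/-- Both spheres to the first. -/
def cA : C(W2, W2) := mapK ⟨fun q => (q.1, false), by fun_prop⟩ (by simp)

/-- Both spheres to the second, the second one by a reflection. -/
def cB : C(W2, W2) :=
  mapK ⟨fun q => (if q.2 then -q.1 else q.1, true), by
    rw [continuous_prodMk]
    refine ⟨?_, continuous_const⟩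
    rw [continuous_prod_of_discrete_right]
    intro b; cases b
    · simp only [Bool.false_eq_true, if_false]; exact continuous_id
    · simpa using continuous_neg⟩ (by rintro (_ | _) <;> simp)

/-- The map with matrix `(1, 1; 1, -1)`. -/
noncomputable def psi : C(W2, W2) := cat cA cB (by simp [cA, cB])

@[simp] theorem psi_pt : psi pt = pt := by simp [psi, cA]
@[simp] theorem dbl_pt : dbl pt = pt := by simp [dbl]
@[simp] theorem neg_pt : neg pt = pt := by simp [neg]
@[simp] theorem swp_pt : swp pt = pt := by simp [swp]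
@[simp] theorem eps_pt : eps pt = pt := by simp [eps]

theorem psi_dbl : psi.comp dbl = dbl.comp psi := by
  unfold psi
  rw [comp_cat, dbl, cat_comp_mapK]
  congr 1
  · apply hom_ext; intro k i t
    simp [cA]
  · apply hom_ext; intro k i t
    cases i <;> simp [cB]

theorem psi_neg : psi.comp neg = neg.comp psi := by
  unfold psi
  rw [comp_cat, neg, cat_comp_mapK]
  congr 1
  · apply hom_ext; intro k i t
    simp [cA]
  · apply hom_ext; intro k i t
    cases i <;> simp [cB]

theorem psi_swp : psi.comp swp = eps.comp psi := by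
  unfold psi
  rw [comp_cat, swp, cat_comp_mapK]
  congr 1
  · apply hom_ext; intro k i t
    cases i <;> simp [cA, eps]
  · apply hom_ext; intro k i t
    cases i <;> simp [cB, eps]

theorem dbl_neg : dbl.comp neg = neg.comp dbl := by
  apply hom_ext; intro k i t
  simp [dbl, neg]

theorem dbl_swp : dbl.comp swp = swp.comp dbl := by
  apply hom_ext; intro k i t
  simp [dbl, swp]

theorem neg_swp : neg.comp swp = swp.comp neg := by
  apply hom_ext; intro k i t
  simp [neg, swp]

theorem dbl_eps : dbl.comp eps = eps.comp dbl := by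
  apply hom_ext; intro k i t
  cases i <;> simp [dbl, eps]

theorem neg_eps : neg.comp eps = eps.comp neg := by
  apply hom_ext; intro k i t
  cases i <;> simp [neg, eps]

end W2

end Pool.H74
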